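import Pool.Agent.Y783.OM.Small

/-!
# The question for arbitrary groups and the question for metrizable groups are the same

* Let `G` be an `ω`-narrow topological group and `A ⊆ G`. Player I has a winning strategy in
  `OF(A)` if and only if `G` has a separable metrizable continuous homomorphic image `f : G → Q`
  such that player I has a winning strategy in `OF(f(A))`.
* Every `o`-bounded topological group on which player I has a winning strategy has a separable
  metrizable continuous homomorphic image with the same two properties (the square of the image is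
  then not `o`-bounded). No separation axiom and no commutativity is assumed.
* If player I has a winning strategy in `OF(A)` for a subset `A` of an `ω`-narrow topological
  group, then there is a dominating family of functions indexed by `A`; so every example has at
  least `𝔡` elements.
* So the question for arbitrary topological groups, the question for metrizable ones and the
  question for separable metrizable ones have the same answer (in ZFC and in each of its models).

`OBounded` and `PlayerIWins` are the definitions of
`Pool.Agent.Results.MP_b00c97_gt.Square` (a starting result).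
-/

set_option autoImplicit false

namespace Pool.Agent.Results.MP_b00c97_gt.MetrizableReduction

open Set Topology Pointwise
open Pool.Agent.Results.MP_b00c97_gt.Square (OBounded PlayerIWins)

universe u

/-- (1) the reduction for subsets of `ω`-narrow groups; (2) the reduction for groups; (3) the
versions of the question are equivalent; (4) the size of a subset of an `ω`-narrow group on which
player I has a winning strategy is at least the dominating number; (5) if the squares of all
separable metrizable `o`-bounded groups are `o`-bounded, then player I has no winning strategy on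
any `o`-bounded topological group. -/
theorem result :
    (∀ (G : Type u) [Group G] [TopologicalSpace G] [IsTopologicalGroup G],
      (∀ V ∈ 𝓝 (1 : G), ∃ D : Set G, D.Countable ∧ D * V = univ) → ∀ A : Set G,
      (PlayerIWins A ↔ ∃ (Q : Type u) (_ : Group Q) (_ : TopologicalSpace Q) (f : G →* Q),
        IsTopologicalGroup Q ∧ TopologicalSpace.MetrizableSpace Q ∧
        TopologicalSpace.SeparableSpace Q ∧ Continuous f ∧ Function.Surjective f ∧
        PlayerIWins (f '' A))) ∧
    (∀ (G : Type u) [Group G] [TopologicalSpace G] [IsTopologicalGroup G],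
      OBounded (univ : Set G) → PlayerIWins (univ : Set G) →
      ∃ (Q : Type u) (_ : Group Q) (_ : TopologicalSpace Q) (f : G →* Q),
        IsTopologicalGroup Q ∧ TopologicalSpace.MetrizableSpace Q ∧
        TopologicalSpace.SeparableSpace Q ∧ Continuous f ∧ Function.Surjective f ∧
        OBounded (univ : Set Q) ∧ PlayerIWins (univ : Set Q) ∧ ¬ OBounded (univ : Set (Q × Q))) ∧
    ((∃ (G : Type u) (_ : Group G) (_ : TopologicalSpace G), IsTopologicalGroup G ∧
        OBounded (univ : Set G) ∧ PlayerIWins (univ : Set G)) ↔
      ∃ (Q : Type u) (_ : Group Q) (_ : TopologicalSpace Q), IsTopologicalGroup Q ∧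
        TopologicalSpace.MetrizableSpace Q ∧ TopologicalSpace.SeparableSpace Q ∧
        OBounded (univ : Set Q) ∧ PlayerIWins (univ : Set Q)) ∧
    (∀ (G : Type u) [Group G] [TopologicalSpace G] [IsTopologicalGroup G],
      (∀ V ∈ 𝓝 (1 : G), ∃ D : Set G, D.Countable ∧ D * V = univ) → ∀ A : Set G,
      PlayerIWins A → ∃ φ : A → ℕ → ℕ, ∀ g : ℕ → ℕ, ∃ x, ∀ n, g n ≤ φ x n) ∧
    ((∀ (Q : Type u) [Group Q] [TopologicalSpace Q] [IsTopologicalGroup Q]
        [TopologicalSpace.MetrizableSpace Q] [TopologicalSpace.SeparableSpace Q],
        OBounded (univ : Set Q) → OBounded (univ : Set (Q × Q))) →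
      ∀ (G : Type u) [Group G] [TopologicalSpace G] [IsTopologicalGroup G],
        OBounded (univ : Set G) → ¬ PlayerIWins (univ : Set G)) := by
  have key : ∀ (G : Type u) [Group G] [TopologicalSpace G] [IsTopologicalGroup G],
      OBounded (univ : Set G) → PlayerIWins (univ : Set G) →
      ∃ (Q : Type u) (_ : Group Q) (_ : TopologicalSpace Q) (f : G →* Q),
        IsTopologicalGroup Q ∧ TopologicalSpace.MetrizableSpace Q ∧
        TopologicalSpace.SeparableSpace Q ∧ Continuous f ∧ Function.Surjective f ∧
        OBounded (univ : Set Q) ∧ PlayerIWins (univ : Set Q) ∧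
        ¬ OBounded (univ : Set (Q × Q)) := by
    intro G _ _ _ hob hwin
    obtain ⟨Q, iG, iT, f, h1, h2, h3, h4, h5, h6⟩ :=
      Pool.Agent.Y783.OM.exists_metrizable G (fun V hV => by
        obtain ⟨D, hD1, hD2⟩ := Pool.Agent.Y783.OM.narrow_of_obounded hob V hV
        exact Pool.Agent.Y783.OM.narrow_seq hD1 hD2) univ hwin
    have himg : f '' univ = univ := by rw [image_univ]; exact h5.range_eq
    rw [himg] at h6
    have h7 := Pool.Agent.Y783.OM.obounded_image f h4 univ hob
    rw [himg] at h7
    refine ⟨Q, iG, iT, f, h1, h2, h3, h4, h5, h7, h6, fun h8 => ?_⟩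
    refine Pool.Agent.Results.MP_b00c97_gt.Square.result (univ : Set Q) ?_ h6
    rwa [univ_prod_univ]
  refine ⟨fun G _ _ _ hnar A => ⟨fun h => ?_, ?_⟩, key, ⟨?_, ?_⟩, fun G _ _ _ hnar A h => ?_,
    fun hsq G _ _ _ hob hwin => ?_⟩
  · exact Pool.Agent.Y783.OM.exists_metrizable G (fun V hV => by
      obtain ⟨D, hD1, hD2⟩ := hnar V hV
      exact Pool.Agent.Y783.OM.narrow_seq hD1 hD2) A h
  · rintro ⟨Q, iG, iT, f, -, -, -, h4, -, h6⟩
    exact Pool.Agent.Y783.OM.pull_back f h4 A h6
  · rintro ⟨G, iG, iT, h1, h2, h3⟩
    obtain ⟨Q, jG, jT, f, k1, k2, k3, -, -, k6, k7, -⟩ := key G h2 h3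
    exact ⟨Q, jG, jT, k1, k2, k3, k6, k7⟩
  · rintro ⟨Q, iG, iT, h1, -, -, h4, h5⟩
    exact ⟨Q, iG, iT, h1, h4, h5⟩
  · exact Pool.Agent.Y783.OM.dominating_of_wins G (fun V hV => by
      obtain ⟨D, hD1, hD2⟩ := hnar V hV
      exact Pool.Agent.Y783.OM.narrow_seq hD1 hD2) A h
  · obtain ⟨Q, jG, jT, f, k1, k2, k3, -, -, k6, k7, k8⟩ := key G hob hwin
    exact k8 (hsq Q k6)

end Pool.Agent.Results.MP_b00c97_gt.MetrizableReduction
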